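import Mathlib
import Pool.Agent.Helper98.BH.Defs
import Pool.Agent.Helper98.BH.Defs2
import Pool.Agent.Helper19.BH.Sel
import Pool.Agent.Helper22.BH.Comb

/-!
# MP_59646b_lc, module BH-2b: bounded closed determinacy
-/

namespace Pool.Agent.BH

open MeasureTheory

variable {W : Type} [MeasurableSpace W]

namespace Dual

/-- pairs of finite sequences, enumerated -/
def enum (k : ℕ) : List ℕ × List ℕ := Denumerable.ofNat (List ℕ × List ℕ) k

lemma enum_surj (u v : List ℕ) : ∃ k, enum k = (u, v) :=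
  ⟨Encodable.encode (u, v), Denumerable.ofNat_encode (u, v)⟩

/-- a bad position -/
def bad (T T' : Set (List ℕ)) (Γ : List ℕ → List ℕ → Prop) (u v : List ℕ) : Prop :=
  v ∈ T' ∧ ¬ Γ u v ∧ ∀ n, u ++ [n] ∈ T → ∃ m, v ++ [m] ∈ T' ∧ Γ (u ++ [n]) (v ++ [m])

/-- the first bad position -/
noncomputable def fst (T T' : Set (List ℕ)) (Γ : List ℕ → List ℕ → Prop) : ℕ :=
  sInf {k | bad T T' Γ (enum k).1 (enum k).2}

/-- the answers at a bad position -/
noncomputable def ans (T' : Set (List ℕ)) (Γ : List ℕ → List ℕ → Prop) (u v : List ℕ) (n : ℕ) : ℕ :=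
  sInf {m | v ++ [m] ∈ T' ∧ Γ (u ++ [n]) (v ++ [m])}

/-- the strategy at a bad position -/
noncomputable def Mbad (T' : Set (List ℕ)) (Γ : List ℕ → List ℕ → Prop) (s : List ℕ → List ℕ → Bai)
    (u v : List ℕ) : Bai :=
  comb (ans T' Γ u v) (fun n => s (u ++ [n]) (v ++ [ans T' Γ u v n]))

/-- moves of the first player -/
noncomputable def NN (T T' : Set (List ℕ)) (Γ : List ℕ → List ℕ → Prop) (u v : List ℕ) : ℕ :=
  sInf {n | u ++ [n] ∈ T ∧ ∀ m, v ++ [m] ∈ T' → ¬ Γ (u ++ [n]) (v ++ [m])}

open Classical in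
/-- the marker function -/
noncomputable def MM (T T' : Set (List ℕ)) (Γ : List ℕ → List ℕ → Prop)
    (s : List ℕ → List ℕ → Bai) : Bai :=
  if Γ [] [] then s [] [] else
    if ∃ k, bad T T' Γ (enum k).1 (enum k).2 then
      Mbad T' Γ s (enum (fst T T' Γ)).1 (enum (fst T T' Γ)).2
    else psi (NN T T' Γ)

lemma spec (T T' : Set (List ℕ)) (pT : ∀ t t', t ∈ T → t' <+: t → t' ∈ T)
    (pT' : ∀ t t', t ∈ T' → t' <+: t → t' ∈ T') (eT : [] ∈ T) (x : Inc)
    (s : List ℕ → List ℕ → Bai)
    (hs : ∀ u v, (∃ g, SII T T' u v g ∧ Dom x g) → SII T T' u v (s u v)) :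
    ((∃ g, SII T T' [] [] g ∧ Dom x g) →
      StratII T T' (MM T T' (fun u v => ∃ g, SII T T' u v g ∧ Dom x g) s)) ∧
    (¬ (∃ g, SII T T' [] [] g ∧ Dom x g) →
      ¬ Dom x (MM T T' (fun u v => ∃ g, SII T T' u v g ∧ Dom x g) s) ∨
      StratI T T' (MM T T' (fun u v => ∃ g, SII T T' u v g ∧ Dom x g) s)) := by
  classical
  set Γ : List ℕ → List ℕ → Prop := fun u v => ∃ g, SII T T' u v g ∧ Dom x g with hΓ
  constructor
  · intro h
    have h0 : Γ [] [] := h
    have : MM T T' Γ s = s [] [] := by simp only [MM, if_pos h0]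
    rw [this]
    intro a ha
    have := hs [] [] h a (by simpa using ha)
    simpa using this
  · intro h
    have h0 : ¬ Γ [] [] := h
    by_cases hb : ∃ k, bad T T' Γ (enum k).1 (enum k).2
    · left
      have hM : MM T T' Γ s = Mbad T' Γ s (enum (fst T T' Γ)).1 (enum (fst T T' Γ)).2 := by
        simp only [MM, if_neg h0, if_pos hb]
      rw [hM]
      have hbad : bad T T' Γ (enum (fst T T' Γ)).1 (enum (fst T T' Γ)).2 :=
        Nat.sInf_mem (s := {k | bad T T' Γ (enum k).1 (enum k).2}) hb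
      generalize (enum (fst T T' Γ)).1 = u at hbad ⊢
      generalize (enum (fst T T' Γ)).2 = v at hbad ⊢
      intro hD
      refine hbad.2.1 ⟨_, ?_, hD⟩
      refine comb_spec T T' pT u v hbad.1 _ _ fun n hn => ?_
      have hans : v ++ [ans T' Γ u v n] ∈ T' ∧ Γ (u ++ [n]) (v ++ [ans T' Γ u v n]) :=
        Nat.sInf_mem (s := {m | v ++ [m] ∈ T' ∧ Γ (u ++ [n]) (v ++ [m])}) (hbad.2.2 n hn)
      exact ⟨hans.1, hs _ _ hans.2⟩
    · right
      have hM : MM T T' Γ s = psi (NN T T' Γ) := by
        simp only [MM, if_neg h0, if_neg hb]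
      rw [hM]
      refine psi_spec T T' pT' eT _ Γ h0 fun u v hv hn => ?_
      have hex : ∃ n, u ++ [n] ∈ T ∧ ∀ m, v ++ [m] ∈ T' → ¬ Γ (u ++ [n]) (v ++ [m]) := by
        by_contra hne
        push Not at hne
        obtain ⟨k, hk⟩ := enum_surj u v
        refine hb ⟨k, ?_⟩
        rw [hk]
        exact ⟨hv, hn, fun n hn' => hne n hn'⟩
      exact Nat.sInf_mem (s := {n | u ++ [n] ∈ T ∧ ∀ m, v ++ [m] ∈ T' →
        ¬ Γ (u ++ [n]) (v ++ [m])}) hex

/-! ### measurability -/

variable {Ω : Type} [MeasurableSpace Ω]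

lemma measurable_sInf (P : ℕ → Ω → Prop) (hP : ∀ n, MeasurableSet {p | P n p}) :
    Measurable fun p => sInf {n | P n p} := by
  classical
  refine measurable_to_countable' fun n => ?_
  by_cases hn : n = 0
  · have : (fun p => sInf {n | P n p}) ⁻¹' {n} = {p | P 0 p} ∪ ⋂ k, {p | ¬ P k p} := by
      ext p
      simp only [Set.mem_preimage, Set.mem_singleton_iff, hn, Nat.sInf_eq_zero, Set.mem_ofPred_eq,
        Set.mem_union, Set.mem_iInter]
      refine or_congr Iff.rfl ?_
      rw [Set.eq_empty_iff_forall_notMem]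
      rfl
    rw [this]
    exact (hP 0).union (MeasurableSet.iInter fun k => (hP k).compl)
  · have : (fun p => sInf {n | P n p}) ⁻¹' {n} = {p | P n p} ∩ ⋂ k : ℕ, ⋂ _ : k < n, {p | ¬ P k p} := by
      ext p
      simp only [Set.mem_preimage, Set.mem_singleton_iff, Set.mem_inter_iff, Set.mem_ofPred_eq,
        Set.mem_iInter]
      constructor
      · intro h
        have hne : {n | P n p}.Nonempty := by
          by_contra hne
          rw [Set.not_nonempty_iff_eq_empty] at hne
          rw [hne, Nat.sInf_empty] at h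
          exact hn h.symm
        refine ⟨?_, fun k hk hPk => ?_⟩
        · have := Nat.sInf_mem hne
          rw [h] at this
          exact this
        · have := Nat.sInf_le (s := {n | P n p}) hPk
          omega
      · rintro ⟨h1, h2⟩
        refine le_antisymm (Nat.sInf_le h1) ?_
        by_contra hlt
        push Not at hlt
        exact h2 _ hlt (Nat.sInf_mem (s := {n | P n p}) ⟨n, h1⟩)
    rw [this]
    exact (hP n).inter (MeasurableSet.iInter fun k => MeasurableSet.iInter fun _ => (hP k).compl)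

lemma measurable_comp_nat {β : Type} [MeasurableSpace β] (F : ℕ → Ω → β) (k : Ω → ℕ)
    (hF : ∀ n, Measurable (F n)) (hk : Measurable k) : Measurable fun p => F (k p) p := by
  intro S hS
  have : (fun p => F (k p) p) ⁻¹' S = ⋃ n, (k ⁻¹' {n} ∩ F n ⁻¹' S) := by
    ext p
    simp
  rw [this]
  exact MeasurableSet.iUnion fun n => (hk (measurableSet_singleton n)).inter (hF n hS)

variable (T T' : Ω → Set (List ℕ)) (Γ : Ω → List ℕ → List ℕ → Prop)
  (s : Ω → List ℕ → List ℕ → Bai)

lemma measurable_bad (hT : ∀ t, MeasurableSet {p | t ∈ T p}) (hT' : ∀ t, MeasurableSet {p | t ∈ T' p})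
    (hΓ : ∀ u v, MeasurableSet {p | Γ p u v}) (u v : List ℕ) :
    MeasurableSet {p | bad (T p) (T' p) (Γ p) u v} := by
  have : {p | bad (T p) (T' p) (Γ p) u v} = {p | v ∈ T' p} ∩ ({p | Γ p u v}ᶜ ∩
      ⋂ n, ({p | u ++ [n] ∈ T p}ᶜ ∪ ⋃ m, ({p | v ++ [m] ∈ T' p} ∩
        {p | Γ p (u ++ [n]) (v ++ [m])}))) := by
    ext p
    simp only [bad, Set.mem_ofPred_eq, Set.mem_inter_iff, Set.mem_compl_iff, Set.mem_iInter,
      Set.mem_union, Set.mem_iUnion, imp_iff_not_or]
  rw [this]
  refine (hT' v).inter ((hΓ u v).compl.inter (MeasurableSet.iInter fun n =>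
    (hT _).compl.union (MeasurableSet.iUnion fun m => (hT' _).inter (hΓ _ _))))

lemma measurable_fst' (hT : ∀ t, MeasurableSet {p | t ∈ T p}) (hT' : ∀ t, MeasurableSet {p | t ∈ T' p})
    (hΓ : ∀ u v, MeasurableSet {p | Γ p u v}) : Measurable fun p => fst (T p) (T' p) (Γ p) :=
  measurable_sInf _ fun _ => measurable_bad T T' Γ hT hT' hΓ _ _

lemma measurable_ans (hT' : ∀ t, MeasurableSet {p | t ∈ T' p})
    (hΓ : ∀ u v, MeasurableSet {p | Γ p u v}) (u v : List ℕ) (n : ℕ) :
    Measurable fun p => ans (T' p) (Γ p) u v n :=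
  measurable_sInf _ fun m => (hT' (v ++ [m])).inter (hΓ (u ++ [n]) (v ++ [m]))

lemma measurable_NN (hT : ∀ t, MeasurableSet {p | t ∈ T p}) (hT' : ∀ t, MeasurableSet {p | t ∈ T' p})
    (hΓ : ∀ u v, MeasurableSet {p | Γ p u v}) (u v : List ℕ) :
    Measurable fun p => NN (T p) (T' p) (Γ p) u v := by
  refine measurable_sInf _ fun n => ?_
  have : {p | u ++ [n] ∈ T p ∧ ∀ m, v ++ [m] ∈ T' p → ¬ Γ p (u ++ [n]) (v ++ [m])} =
      {p | u ++ [n] ∈ T p} ∩ ⋂ m, ({p | v ++ [m] ∈ T' p}ᶜ ∪ {p | Γ p (u ++ [n]) (v ++ [m])}ᶜ) := by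
    ext p
    simp only [Set.mem_ofPred_eq, Set.mem_inter_iff, Set.mem_compl_iff, Set.mem_iInter,
      Set.mem_union, imp_iff_not_or]
  rw [this]
  exact (hT _).inter (MeasurableSet.iInter fun m => (hT' _).compl.union (hΓ _ _).compl)

lemma measurable_Mbad (hT' : ∀ t, MeasurableSet {p | t ∈ T' p})
    (hΓ : ∀ u v, MeasurableSet {p | Γ p u v}) (hs : ∀ u v, Measurable fun p => s p u v)
    (u v : List ℕ) : Measurable fun p => Mbad (T' p) (Γ p) (s p) u v := by
  rw [measurable_pi_iff]
  intro j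
  simp only [Mbad, comb]
  rcases h : (Encodable.decode j : Option (List ℕ)) with _ | l
  · simp
  · rcases l with _ | ⟨n, a⟩
    · simp
    · by_cases ha : a = []
      · simp only [ha, if_true]
        exact measurable_ans T' Γ hT' hΓ u v n
      · simp only [ha, if_false]
        exact measurable_comp_nat (fun m p => str (s p (u ++ [n]) (v ++ [m])) a)
          (fun p => ans (T' p) (Γ p) u v n)
          (fun m => (measurable_pi_apply _).comp (hs (u ++ [n]) (v ++ [m])))
          (measurable_ans T' Γ hT' hΓ u v n)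

lemma measurable_psi (N : Ω → List ℕ → List ℕ → ℕ) (hN : ∀ u v, Measurable fun p => N p u v) :
    Measurable fun p => psi (N p) := by
  have key : ∀ (b : List ℕ) (c : List ℕ × List ℕ), MeasurableSet {p |
      b.foldl (fun q m => (q.1 ++ [N p q.1 q.2], q.2 ++ [m])) (([] : List ℕ), ([] : List ℕ)) = c} := by
    intro b
    induction b using List.reverseRecOn with
    | nil =>
      intro c
      simp only [List.foldl_nil]
      exact MeasurableSet.const _
    | append_singleton b m ih =>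
      intro c
      have : {p | (b ++ [m]).foldl (fun q m => (q.1 ++ [N p q.1 q.2], q.2 ++ [m]))
          (([] : List ℕ), ([] : List ℕ)) = c} = ⋃ c' : List ℕ × List ℕ,
          ({p | b.foldl (fun q m => (q.1 ++ [N p q.1 q.2], q.2 ++ [m]))
            (([] : List ℕ), ([] : List ℕ)) = c'} ∩
            {p | (c'.1 ++ [N p c'.1 c'.2], c'.2 ++ [m]) = c}) := by
        ext p
        simp only [List.foldl_append, List.foldl_cons, List.foldl_nil, Set.mem_ofPred_eq,
          Set.mem_iUnion, Set.mem_inter_iff]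
        constructor
        · intro h
          exact ⟨_, rfl, h⟩
        · rintro ⟨c', h1, h2⟩
          rw [h1]
          exact h2
      rw [this]
      refine MeasurableSet.iUnion fun c' => (ih c').inter ?_
      have h2 : {p | (c'.1 ++ [N p c'.1 c'.2], c'.2 ++ [m]) = c} =
          (fun p => N p c'.1 c'.2) ⁻¹' {n | (c'.1 ++ [n], c'.2 ++ [m]) = c} := rfl
      rw [h2]
      exact hN c'.1 c'.2 (Set.to_countable _).measurableSet
  rw [measurable_pi_iff]
  intro j
  simp only [psi]
  rcases h : (Encodable.decode j : Option (List ℕ)) with _ | b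
  · simp
  · simp only []
    refine measurable_to_countable' fun n => ?_
    have : (fun p => N p (movesI (N p) b) b) ⁻¹' {n} = ⋃ c : List ℕ × List ℕ,
        ({p | b.foldl (fun q m => (q.1 ++ [N p q.1 q.2], q.2 ++ [m]))
            (([] : List ℕ), ([] : List ℕ)) = c} ∩ (fun p => N p c.1 b) ⁻¹' {n}) := by
      ext p
      simp only [Set.mem_preimage, Set.mem_singleton_iff, Set.mem_iUnion, Set.mem_inter_iff,
        Set.mem_ofPred_eq]
      constructor
      · intro h
        exact ⟨_, rfl, h⟩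
      · rintro ⟨c, h1, h2⟩
        simp only [movesI, h1]
        exact h2
    rw [this]
    exact MeasurableSet.iUnion fun c => (key b c).inter (hN c.1 b (measurableSet_singleton n))

lemma measurable_MM (hT : ∀ t, MeasurableSet {p | t ∈ T p}) (hT' : ∀ t, MeasurableSet {p | t ∈ T' p})
    (hΓ : ∀ u v, MeasurableSet {p | Γ p u v}) (hs : ∀ u v, Measurable fun p => s p u v) :
    Measurable fun p => MM (T p) (T' p) (Γ p) (s p) := by
  classical
  have hb : MeasurableSet {p | ∃ k, bad (T p) (T' p) (Γ p) (enum k).1 (enum k).2} := by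
    have : {p | ∃ k, bad (T p) (T' p) (Γ p) (enum k).1 (enum k).2} =
        ⋃ k, {p | bad (T p) (T' p) (Γ p) (enum k).1 (enum k).2} := by
      ext p
      simp
    rw [this]
    exact MeasurableSet.iUnion fun k => measurable_bad T T' Γ hT hT' hΓ _ _
  refine Measurable.ite (hΓ [] []) (hs [] []) (Measurable.ite hb ?_ ?_)
  · exact measurable_comp_nat (fun k p => Mbad (T' p) (Γ p) (s p) (enum k).1 (enum k).2)
      (fun p => fst (T p) (T' p) (Γ p)) (fun k => measurable_Mbad T' Γ s hT' hΓ hs _ _)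
      (measurable_fst' T T' Γ hT hT' hΓ)
  · exact measurable_psi _ fun u v => measurable_NN T T' Γ hT hT' hΓ u v

end Dual

/-- the conditions on a strategy depend on finitely many values -/
lemma SII_local (u v a : List ℕ) : ∃ N, ∀ (T T' : Set (List ℕ)) (f f' : Bai),
    (∀ i < N, f i = f' i) →
    ((u ++ a ∈ T → v ++ a.inits.tail.map (str f) ∈ T') ↔
      (u ++ a ∈ T → v ++ a.inits.tail.map (str f') ∈ T')) := by
  refine ⟨(a.inits.map Encodable.encode).sum + 1, fun T T' f f' h => ?_⟩
  have : a.inits.tail.map (str f) = a.inits.tail.map (str f') := by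
    refine List.map_congr_left fun b hb => ?_
    refine h _ ?_
    have hb' : Encodable.encode b ∈ a.inits.map Encodable.encode :=
      List.mem_map_of_mem (List.mem_of_mem_tail hb)
    have := List.single_le_sum (l := a.inits.map Encodable.encode) (by simp) _ hb'
    omega
  rw [this]

theorem duality (T T' : W → Set (List ℕ))
    (hT : ∀ t, MeasurableSet {w | t ∈ T w}) (hT' : ∀ t, MeasurableSet {w | t ∈ T' w})
    (pT : ∀ w t t', t ∈ T w → t' <+: t → t' ∈ T w) (pT' : ∀ w t t', t ∈ T' w → t' <+: t → t' ∈ T' w)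
    (eT : ∀ w, [] ∈ T w) (eT' : ∀ w, [] ∈ T' w) :
    ∃ (side : W × Inc → Bool) (M : W × Inc → Bai), Measurable side ∧ Measurable M ∧
      (∀ w x, side (w, shift x) = side (w, x)) ∧ (∀ w x, M (w, shift x) = M (w, x)) ∧
      ∀ w x, (side (w, x) = true → StratII (T w) (T' w) (M (w, x))) ∧
        (side (w, x) = false → ¬ Dom x (M (w, x)) ∨ StratI (T w) (T' w) (M (w, x))) := by
  classical
  have hsel : ∀ u v : List ℕ, MeasurableSet {p : W × Inc | ∃ g, SII (T p.1) (T' p.1) u v g ∧
      Dom p.2 g} ∧ ∃ sel : W × Inc → Bai, Measurable sel ∧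
      (∀ w x, sel (w, shift x) = sel (w, x)) ∧
      ∀ w x, (∃ g, SII (T w) (T' w) u v g ∧ Dom x g) → SII (T w) (T' w) u v (sel (w, x)) := by
    intro u v
    refine exists_sel (fun (a : List ℕ) w g => u ++ a ∈ T w → v ++ a.inits.tail.map (str g) ∈ T' w)
      (fun a => ?_) (fun a f => ?_)
    · obtain ⟨N, hN⟩ := SII_local u v a
      exact ⟨N, fun w f f' h => hN _ _ f f' h⟩
    · have : {w | u ++ a ∈ T w → v ++ a.inits.tail.map (str f) ∈ T' w} =
          {w | u ++ a ∈ T w}ᶜ ∪ {w | v ++ a.inits.tail.map (str f) ∈ T' w} := by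
        ext w
        simp only [Set.mem_ofPred_eq, Set.mem_union, Set.mem_compl_iff, imp_iff_not_or]
      rw [this]
      exact (hT _).compl.union (hT' _)
  choose hΓ sel hsm hsi hss using hsel
  refine ⟨fun p => decide (∃ g, SII (T p.1) (T' p.1) [] [] g ∧ Dom p.2 g),
    fun p => Dual.MM (T p.1) (T' p.1) (fun u v => ∃ g, SII (T p.1) (T' p.1) u v g ∧ Dom p.2 g)
      (fun u v => sel u v p), ?_, ?_, ?_, ?_, ?_⟩
  · refine measurable_to_bool ?_
    have : (fun p : W × Inc => decide (∃ g, SII (T p.1) (T' p.1) [] [] g ∧ Dom p.2 g)) ⁻¹' {true} =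
        {p : W × Inc | ∃ g, SII (T p.1) (T' p.1) [] [] g ∧ Dom p.2 g} := by
      ext p
      simp
    rw [this]
    exact hΓ [] []
  · exact Dual.measurable_MM (fun p : W × Inc => T p.1) (fun p => T' p.1)
      (fun p u v => ∃ g, SII (T p.1) (T' p.1) u v g ∧ Dom p.2 g) (fun p u v => sel u v p)
      (fun t => measurable_fst (hT t)) (fun t => measurable_fst (hT' t)) hΓ hsm
  · intro w x
    simp only [dom_shift]
  · intro w x
    simp only [dom_shift, hsi]
  · intro w x
    have := Dual.spec (T w) (T' w) (pT w) (pT' w) (eT w) x (fun u v => sel u v (w, x))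
      (fun u v h => hss u v w x h)
    constructor
    · intro h
      exact this.1 (by simpa using h)
    · intro h
      exact this.2 (by simpa using h)

end Pool.Agent.BH
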